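import Pool.Agent.H62.GHY.SPLD

/-!
Row SPL of the board ghy: the Lipschitz constant of a spherical form.
-/

set_option autoImplicit false

namespace Pool.Agent.H62.GHY

open MeasureTheory Filter
open Pool.Agent.H34.GM Pool.Agent.H34.GZ Pool.Agent.H34.GU Pool.Agent.H34.GA Pool.Agent.H68.GHY
open Pool.Agent.H90.GA (sz_nn inv_near det_ne_D)
open Pool.Agent.H46.GU (fz)
open Pool.Agent.H91.GA (tr)
open scoped ENNReal

/-- real numbers -/
theorem spl_real {L CD M κ : ℝ} (hL : 0 ≤ L) (hCD : 0 ≤ CD) (hM : 0 < M) (hκ : M / 2 ≤ κ) :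
    (κ ^ 2)⁻¹ * (L * CD * M) ^ 2 ≤ (2 * L * CD) ^ 2 := by
  have hκ0 : 0 < κ := by linarith
  rw [inv_mul_le_iff₀ (by positivity)]
  have h1 : κ ^ 2 * (2 * L * CD) ^ 2 = (2 * κ * (L * CD)) ^ 2 := by ring
  rw [h1]
  refine pow_le_pow_left₀ (by positivity) ?_ 2
  have h2 : 0 ≤ L * CD := by positivity
  nlinarith

/-- the main bound -/
theorem spl_main (hM : T_MSR) (hH : T_HAR) (hHC : T_HAC) (hPC : T_PWC) (hR : T_RTI) (hA : T_ALU)
    (hVL : T_VLM) {m N : ℕ} [NeZero N] {T : ℕ → Finset (ZM m)} {D : Set (V m)}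
    (hS : SysZ m N T D) {F : Mat m → VN m N → ℂ} {lam : ℕ → ℂ} {mu : Fin m → ℂ}
    (hE : EigU m N T F lam mu) (hF : HecA m N T F lam) (hn : nU D F = 1) {χ : ℝ → ℝ}
    (hχ : Prof χ) {δ : ℝ} (hδ : 0 < δ) (hk : Tst m (bump m χ δ))
    (hpw : ∀ z : Mat m, br χ δ z ≠ 0 → ‖pw mu z - 1‖ ≤ 1 / 2)
    {w : Mat m} (hw : w.det ≠ 0) {L CD : ℝ} (hL : 0 ≤ L) (hCD : 0 ≤ CD)
    (hlip : ∀ z : Mat m, |br χ δ (z * w) - br χ δ z| ≤ L ∧
      (br χ δ (z * w) - br χ δ z ≠ 0 → sf z ≤ (4 * δ) ^ 2))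
    (hdb : hm m (nb m (4 * δ)) ≤ ENNReal.ofReal CD * hm m (nb m (δ / 4))) :
    ∑ x, ∫ z in D, ‖F ((mt z : Mat m) * w) x - F (mt z) x‖ ^ 2 ∂(hm m) ≤ (2 * L * CD) ^ 2 := by
  have hm1 := hS.one_le
  have hfin := nb_fin hH hm1 hχ hδ hk
  have hpos : hm m (nb m (δ / 4)) ≠ 0 := nb_pos (by positivity)
  have hM0 : 0 < (hm m (nb m (δ / 4))).toReal := ENNReal.toReal_pos hpos hfin.ne
  have hkh := khat_lb hM hH hPC hm1 hχ hδ hk hpw
  obtain ⟨κ, hκ⟩ : ∃ κ : ℝ, κ = ‖∫ z : V m, bump m χ δ (mt z) * pw mu (mt z) ∂(hm m)‖ := ⟨_, rfl⟩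
  rw [← hκ] at hkh
  have hκ0 : 0 < κ := by linarith
  have hmass := aw_mass w hL hCD hlip hfin hdb
  have hnorm := conv_norm hR hA hM hH hS hF (aw_meas hM hk w)
    (G := fun x z => ENNReal.ofReal (κ * ‖F ((mt z : Mat m) * w) x - F (mt z) x‖))
    (fun x z hz => by
      rw [hκ]
      exact aw_pt hM hH hHC hm1 hE hk x (det_ne_D hm1 hS.dom hz) hw)
  have h1 : ∑ x, ∫⁻ z in D, ENNReal.ofReal (‖F (mt z) x‖ ^ 2) ∂(hm m) = 1 := by
    have h2 := sq_lint (fun x z => F (mt z) x) (fun x => int_o hVL hS hF x)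
    have h3 : (∑ x, ∫ z in D, ‖F (mt z) x‖ ^ 2 ∂(hm m)) = 1 := hn
    have h4 : ENNReal.ofReal (∑ x, ∫ z in D, ‖F (mt z) x‖ ^ 2 ∂(hm m)) =
      ∑ x, ∫⁻ z in D, (ENNReal.ofReal ‖F (mt z) x‖) ^ 2 ∂(hm m) := h2
    rw [h3, ENNReal.ofReal_one] at h4
    rw [h4]
    refine Finset.sum_congr rfl fun x _ => lintegral_congr fun z => ?_
    rw [ENNReal.ofReal_pow (norm_nonneg _)]
  rw [h1, mul_one] at hnorm
  have e1 : ∑ x, ∫⁻ z in D, (ENNReal.ofReal (κ * ‖F ((mt z : Mat m) * w) x - F (mt z) x‖)) ^ 2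
      ∂(hm m) = ENNReal.ofReal (κ ^ 2) * ∑ x, ∫⁻ z in D,
        (ENNReal.ofReal ‖F ((mt z : Mat m) * w) x - F (mt z) x‖) ^ 2 ∂(hm m) := by
    rw [Finset.mul_sum]
    refine Finset.sum_congr rfl fun x _ => ?_
    rw [← lintegral_const_mul' _ _ ENNReal.ofReal_ne_top]
    refine lintegral_congr fun z => ?_
    rw [ENNReal.ofReal_mul hκ0.le, mul_pow, ENNReal.ofReal_pow hκ0.le]
  have e2 := sq_lint (fun x z => F ((mt z : Mat m) * w) x - F (mt z) x)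
    (fun x => int_d hVL hS hF hw x)
  have e3 : ENNReal.ofReal (∑ x, ∫ z in D, ‖F ((mt z : Mat m) * w) x - F (mt z) x‖ ^ 2
      ∂(hm m)) = ∑ x, ∫⁻ z in D,
        (ENNReal.ofReal ‖F ((mt z : Mat m) * w) x - F (mt z) x‖) ^ 2 ∂(hm m) := e2
  rw [e1, ← e3] at hnorm
  have h5 := hnorm.trans (pow_le_pow_left' hmass 2)
  rw [← ENNReal.ofReal_mul (by positivity), ← ENNReal.ofReal_pow (by positivity),
    ENNReal.ofReal_le_ofReal_iff (by positivity)] at h5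
  refine le_trans ?_ (spl_real hL hCD hM0 hkh)
  rw [le_inv_mul_iff₀ (by positivity)]
  exact h5

/-- eigenforms -/
theorem hecA_of {m N : ℕ} [NeZero N] {T : ℕ → Finset (ZM m)} {F : Mat m → VN m N → ℂ}
    {lam : ℕ → ℂ} {mu : Fin m → ℂ} (h : EigU m N T F lam mu) : HecA m N T F lam :=
  ⟨h.cont, h.supp, h.auto, h.scal, h.hecke, h.bdd⟩

theorem pf_SPL (hDBK : T_DBK) (hPRF : T_PRF) (hBMP : T_BMP) (hPWN : T_PWN) (hPWC : T_PWC)
    (hHAR : T_HAR) (hHAC : T_HAC) (hRTI : T_RTI) (hVLM : T_VLM) (hALU : T_ALU) (hMSR : T_MSR) :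
    Pool.Agent.H68.GHY.T_SPL := by
  intro m hm1
  obtain ⟨χ, hχ⟩ := hPRF
  obtain ⟨K, hK, hbl⟩ := br_lip hχ
  obtain ⟨CD, hCD, hDB⟩ := hDBK m hm1
  obtain ⟨CW, cW, hCW, hcW, hPW⟩ := hPWN m hm1
  have hkA := kA_pos hm1
  have hCD0 : 0 < CD := by linarith
  set c0 : ℝ := min (1 / 2) (min cW (min (1 / (2 * CW)) (1 / CD))) with hc0
  have hc0p : 0 < c0 := by
    rw [hc0]
    exact lt_min (by norm_num) (lt_min hcW (lt_min (by positivity) (by positivity)))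
  have hc1 : c0 ≤ 1 / 2 := min_le_left _ _
  have hc2 : c0 ≤ cW := (min_le_right _ _).trans (min_le_left _ _)
  have hc3 : c0 ≤ 1 / (2 * CW) :=
    (min_le_right _ _).trans ((min_le_right _ _).trans (min_le_left _ _))
  have hc4 : c0 ≤ 1 / CD := (min_le_right _ _).trans ((min_le_right _ _).trans (min_le_right _ _))
  clear_value c0
  have hx1 : 0 ≤ 2 * K * kA m * CD / c0 := by positivity
  have hx2 : 0 ≤ 4 * kA m / c0 := by positivity
  refine ⟨2 * K * kA m * CD / c0 + 4 * kA m / c0 + 1, by linarith, ?_⟩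
  intro N _ T D hS F lam mu hE hnU P hP w hw
  have hF := hecA_of hE
  have hmu : 0 ≤ ∑ j, ‖mu j‖ := Finset.sum_nonneg fun _ _ => norm_nonneg _
  have hP1 : 1 ≤ P := by linarith
  have hP0 : 0 < P := by linarith
  have hm1' : (1 : ℝ) ≤ m := by exact_mod_cast hm1
  have hτ0 : 0 ≤ sz (w - 1) := sz_nn _
  have hwd : w.det ≠ 0 := (inv_near hm1 (le_refl (sz (w - 1))) (by linarith)).1
  obtain ⟨δ, hδd⟩ : ∃ δ : ℝ, δ = c0 / P := ⟨_, rfl⟩
  have hδ : 0 < δ := by rw [hδd]; positivity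
  have hδP : δ * P = c0 := by rw [hδd]; field_simp
  have hδc : δ ≤ c0 := by
    rw [hδd, div_le_iff₀ hP0]
    nlinarith
  have hδ2 : δ ≤ 1 / 2 := hδc.trans hc1
  by_cases hcase : 2 * kA m * sz (w - 1) ≤ δ
  · have hk : Tst m (bump m χ δ) := ((hBMP m χ hm1 hχ).1 δ hδ hδ2).1
    have hpsi : δ * (1 + ‖(0 : ℂ)‖ + ∑ j, ‖mu j‖) ≤ c0 := by
      rw [norm_zero, add_zero, ← hδP]
      exact mul_le_mul_of_nonneg_left hP hδ.le
    have hpw : ∀ z : Mat m, br χ δ z ≠ 0 → ‖pw mu z - 1‖ ≤ 1 / 2 := by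
      intro z hz
      have h1 := hPW mu 0 δ z hδ (br_supp hχ hδ hz) (hpsi.trans hc2)
      have h2 := h1.2
      rw [Complex.cpow_zero, one_mul] at h2
      refine h2.trans ?_
      have h3 : CW * δ * (1 + ‖(0 : ℂ)‖ + ∑ j, ‖mu j‖) =
          CW * (δ * (1 + ‖(0 : ℂ)‖ + ∑ j, ‖mu j‖)) := by ring
      rw [h3]
      calc CW * (δ * (1 + ‖(0 : ℂ)‖ + ∑ j, ‖mu j‖)) ≤ CW * (1 / (2 * CW)) :=
            mul_le_mul_of_nonneg_left (hpsi.trans hc3) hCW.le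
        _ = 1 / 2 := by field_simp
    have hdb : hm m (nb m (4 * δ)) ≤ ENNReal.ofReal CD * hm m (nb m (δ / 4)) := by
      refine hDB δ hδ ?_
      calc CD * δ ≤ CD * (1 / CD) := mul_le_mul_of_nonneg_left (hδc.trans hc4) hCD0.le
        _ = 1 := by field_simp
    have hmain := spl_main hMSR hHAR hHAC hPWC hRTI hALU hVLM hS hE hF hnU hχ hδ hk hpw hwd
      (L := K * kA m * sz (w - 1) / δ) (by positivity) hCD0.le
      (fun z => hbl m hm1 δ hδ hδ2 z w (sz (w - 1)) le_rfl hcase) hdb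
    refine hmain.trans (pow_le_pow_left₀ (by positivity) ?_ 2)
    have h4 : 2 * (K * kA m * sz (w - 1) / δ) * CD = 2 * K * kA m * CD / c0 * P * sz (w - 1) := by
      rw [hδd]
      field_simp
    rw [h4]
    refine mul_le_mul_of_nonneg_right (mul_le_mul_of_nonneg_right ?_ hP0.le) hτ0
    linarith
  · push Not at hcase
    have htriv := lip_triv hVLM hRTI hALU hS hF hwd
    rw [hnU, mul_one] at htriv
    refine htriv.trans ?_
    have h1 : c0 < 2 * kA m * sz (w - 1) * P := by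
      rw [hδd, div_lt_iff₀ hP0] at hcase
      exact hcase
    have h2 : 2 ≤ 4 * kA m / c0 * P * sz (w - 1) := by
      have h3 : 4 * kA m / c0 * P * sz (w - 1) = (2 * (2 * kA m * sz (w - 1) * P)) / c0 := by
        field_simp
        ring
      rw [h3, le_div_iff₀ hc0p]
      linarith
    have h5 : 4 * kA m / c0 * P * sz (w - 1) ≤
        (2 * K * kA m * CD / c0 + 4 * kA m / c0 + 1) * P * sz (w - 1) := by
      refine mul_le_mul_of_nonneg_right (mul_le_mul_of_nonneg_right ?_ hP0.le) hτ0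
      linarith
    nlinarith

end Pool.Agent.H62.GHY
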