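import Pool.Agent.H90.GA.CBas
import Pool.Agent.H68.GHY.Targets2

/-!
Row SPL of the board ghy, part A: the bump functions near the orthogonal group under small changes
of the variable.
-/

set_option autoImplicit false

namespace Pool.Agent.H62.GHY

open MeasureTheory Pool.Agent.H34.GM Pool.Agent.H34.GZ Pool.Agent.H34.GU Pool.Agent.H34.GA
open Pool.Agent.H90.GA (sz_nn le_sz sz_le sz_mul inv_near)

/-- the square of the distance to the orthogonal group -/
noncomputable def sf {m : ℕ} (z : Mat m) : ℝ := ∑ i, ∑ j, ((z.transpose * z - 1) i j) ^ 2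

theorem sf_nn {m : ℕ} (z : Mat m) : 0 ≤ sf z :=
  Finset.sum_nonneg fun _ _ => Finset.sum_nonneg fun _ _ => sq_nonneg _

theorem sz_add {m : ℕ} (a b : Mat m) : sz (a + b) ≤ sz a + sz b := by
  apply sz_le (add_nonneg (sz_nn _) (sz_nn _))
  intro i j
  rw [Matrix.add_apply]
  exact (abs_add_le _ _).trans (add_le_add (le_sz a i j) (le_sz b i j))

theorem sz_tr {m : ℕ} (a : Mat m) : sz a.transpose ≤ sz a := by
  apply sz_le (sz_nn _)
  intro i j
  rw [Matrix.transpose_apply]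
  exact le_sz a j i

/-- the entries of `zᵀ z - 1` -/
theorem sz_sf {m : ℕ} (z : Mat m) : sz (z.transpose * z - 1) ≤ Real.sqrt (sf z) := by
  apply sz_le (Real.sqrt_nonneg _)
  intro i j
  apply Real.abs_le_sqrt
  have h1 : ((z.transpose * z - 1) i j) ^ 2 ≤ ∑ j, ((z.transpose * z - 1) i j) ^ 2 :=
    Finset.single_le_sum (f := fun j => ((z.transpose * z - 1) i j) ^ 2)
      (fun _ _ => sq_nonneg _) (Finset.mem_univ j)
  have h2 : ∑ j, ((z.transpose * z - 1) i j) ^ 2 ≤ sf z :=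
    Finset.single_le_sum (f := fun i => ∑ j, ((z.transpose * z - 1) i j) ^ 2)
      (fun _ _ => Finset.sum_nonneg fun _ _ => sq_nonneg _) (Finset.mem_univ i)
  exact h1.trans h2

/-- the Frobenius norm -/
theorem fro_sub {m : ℕ} {X Y : Mat m} {η : ℝ} (hη : 0 ≤ η) (h : sz (X - Y) ≤ η) :
    |Real.sqrt (∑ i, ∑ j, (X i j) ^ 2) - Real.sqrt (∑ i, ∑ j, (Y i j) ^ 2)| ≤ m * η := by
  have e1 : ∀ M : Mat m, Real.sqrt (∑ i, ∑ j, (M i j) ^ 2) =
      ‖(WithLp.toLp 2 (fun p : Fin m × Fin m => M p.1 p.2) : EuclideanSpace ℝ (Fin m × Fin m))‖ := by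
    intro M
    rw [EuclideanSpace.norm_eq, Fintype.sum_prod_type]
    simp only [Real.norm_eq_abs, sq_abs]
  rw [e1, e1]
  refine (abs_norm_sub_norm_le _ _).trans ?_
  rw [EuclideanSpace.norm_eq]
  have h2 : (m : ℝ) * η = Real.sqrt ((m * η) ^ 2) := (Real.sqrt_sq (by positivity)).symm
  rw [h2]
  apply Real.sqrt_le_sqrt
  calc _ ≤ ∑ _p : Fin m × Fin m, η ^ 2 := by
        refine Finset.sum_le_sum fun p _ => ?_
        rw [Real.norm_eq_abs]
        refine pow_le_pow_left₀ (abs_nonneg _) ?_ 2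
        exact (le_sz (X - Y) p.1 p.2).trans h
    _ = (m * η) ^ 2 := by
        rw [Finset.sum_const, Finset.card_univ, Fintype.card_prod, Fintype.card_fin, nsmul_eq_mul]
        push_cast
        ring

/-- the constant -/
noncomputable def kA (m : ℕ) : ℝ := m * (2 * (2 * m + m ^ 2) + 2 + m)

/-- change of the variable -/
theorem sf_near {m : ℕ} {z w : Mat m} {τ : ℝ} (hw : sz (w - 1) ≤ τ) (hτ : τ ≤ 1)
    (hz : Real.sqrt (sf z) ≤ 2) :
    |Real.sqrt (sf (z * w)) - Real.sqrt (sf z)| ≤ kA m * τ := by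
  have hτ0 : 0 ≤ τ := (sz_nn _).trans hw
  have hm0 : (0 : ℝ) ≤ m := Nat.cast_nonneg m
  set u : Mat m := w - 1 with hu
  set E : Mat m := z.transpose * z - 1 with hE
  have hEs : sz E ≤ 2 := (sz_sf z).trans hz
  have e1 : ((z * w).transpose * (z * w) - 1) - E =
      (u.transpose * E + E * u + u.transpose * E * u) + (u + u.transpose + u.transpose * u) := by
    have hw1 : w = 1 + u := by rw [hu]; abel
    have hz1 : z.transpose * z = 1 + E := by rw [hE]; abel
    have h1 : (z * w).transpose * (z * w) = w.transpose * (z.transpose * z) * w := by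
      rw [Matrix.transpose_mul]
      simp only [Matrix.mul_assoc]
    rw [h1, hz1, hw1, Matrix.transpose_add, Matrix.transpose_one]
    noncomm_ring
  have hut : sz u.transpose ≤ τ := (sz_tr u).trans hw
  have p1 : sz (u.transpose * E) ≤ m * (τ * 2) := by
    refine (sz_mul _ _).trans ?_
    rw [mul_assoc]
    exact mul_le_mul_of_nonneg_left (mul_le_mul hut hEs (sz_nn _) hτ0) hm0
  have p2 : sz (E * u) ≤ m * (2 * τ) := by
    refine (sz_mul _ _).trans ?_
    rw [mul_assoc]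
    exact mul_le_mul_of_nonneg_left (mul_le_mul hEs hw (sz_nn _) (by norm_num)) hm0
  have p3 : sz (u.transpose * E * u) ≤ m * ((m * (τ * 2)) * τ) := by
    refine (sz_mul _ _).trans ?_
    rw [mul_assoc]
    exact mul_le_mul_of_nonneg_left (mul_le_mul p1 hw (sz_nn _) (by positivity)) hm0
  have p4 : sz (u.transpose * u) ≤ m * (τ * τ) := by
    refine (sz_mul _ _).trans ?_
    rw [mul_assoc]
    exact mul_le_mul_of_nonneg_left (mul_le_mul hut hw (sz_nn _) hτ0) hm0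
  have hττ : τ * τ ≤ τ := by nlinarith
  have hdiff : sz (((z * w).transpose * (z * w) - 1) - E) ≤ (2 * (2 * m + m ^ 2) + 2 + m) * τ := by
    rw [e1]
    have q1 := sz_add (u.transpose * E + E * u + u.transpose * E * u)
      (u + u.transpose + u.transpose * u)
    have q2 := sz_add (u.transpose * E + E * u) (u.transpose * E * u)
    have q3 := sz_add (u.transpose * E) (E * u)
    have q4 := sz_add (u + u.transpose) (u.transpose * u)
    have q5 := sz_add u u.transpose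
    have r1 : (m : ℝ) * ((m * (τ * 2)) * τ) ≤ 2 * m ^ 2 * τ := by
      have : (m : ℝ) * ((m * (τ * 2)) * τ) = 2 * m ^ 2 * (τ * τ) := by ring
      rw [this]
      exact mul_le_mul_of_nonneg_left hττ (by positivity)
    have r2 : (m : ℝ) * (τ * τ) ≤ m * τ := mul_le_mul_of_nonneg_left hττ hm0
    have hwu : sz u ≤ τ := hw
    nlinarith
  have h3 := fro_sub (by positivity) hdiff
  have h4 : (m : ℝ) * ((2 * (2 * m + m ^ 2) + 2 + m) * τ) = kA m * τ := by
    unfold kA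
    ring
  rw [h4] at h3
  exact h3

theorem kA_pos {m : ℕ} (hm : 1 ≤ m) : 1 ≤ kA m := by
  have h : (1 : ℝ) ≤ m := by exact_mod_cast hm
  unfold kA
  nlinarith

/-- the support -/
theorem sf_supp {m : ℕ} (hm : 1 ≤ m) {z w : Mat m} {τ δ : ℝ} (hw : sz (w - 1) ≤ τ) (hδ : δ ≤ 1 / 2)
    (hτ : 2 * kA m * τ ≤ δ) (h : sf (z * w) ≤ δ ^ 2) : sf z ≤ (4 * δ) ^ 2 := by
  have hτ0 : 0 ≤ τ := (sz_nn _).trans hw
  have hk := kA_pos hm
  have hδ0 : 0 ≤ δ := le_trans (by positivity) hτ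
  have hmk : (m : ℝ) ≤ kA m := by
    have h : (1 : ℝ) ≤ m := by exact_mod_cast hm
    unfold kA
    nlinarith
  have hτ1 : 2 * τ ≤ 1 := by nlinarith
  have ht : (m : ℝ) * τ ≤ 1 / 2 := by nlinarith
  obtain ⟨hd, hi⟩ := inv_near hm hw ht
  have h1 : Real.sqrt (sf (z * w)) ≤ δ := by
    rw [show δ = Real.sqrt (δ ^ 2) from (Real.sqrt_sq hδ0).symm]
    exact Real.sqrt_le_sqrt h
  have h2 := sf_near hi hτ1 (h1.trans (by linarith))
  have h3 : z * w * w⁻¹ = z := Matrix.mul_nonsing_inv_cancel_right _ _ (isUnit_iff_ne_zero.2 hd)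
  rw [h3] at h2
  have h4 : Real.sqrt (sf z) ≤ 4 * δ := by
    have := (abs_le.1 h2).2
    nlinarith
  calc sf z = Real.sqrt (sf z) ^ 2 := (Real.sq_sqrt (sf_nn z)).symm
    _ ≤ (4 * δ) ^ 2 := pow_le_pow_left₀ (Real.sqrt_nonneg _) h4 2

/-- the bump function as a real function -/
noncomputable def br {m : ℕ} (χ : ℝ → ℝ) (δ : ℝ) (z : Mat m) : ℝ := χ (sf z / δ ^ 2)

theorem bump_br {m : ℕ} (χ : ℝ → ℝ) (δ : ℝ) (z : Mat m) :
    bump m χ δ z = ((br χ δ z : ℝ) : ℂ) := rfl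

theorem br_supp {m : ℕ} {χ : ℝ → ℝ} (hχ : Prof χ) {δ : ℝ} (hδ : 0 < δ) {z : Mat m}
    (h : br χ δ z ≠ 0) : sf z ≤ δ ^ 2 := by
  by_contra h1
  push Not at h1
  apply h
  apply hχ.supp
  rw [abs_of_nonneg (div_nonneg (sf_nn z) (by positivity)), le_div_iff₀ (by positivity)]
  linarith

theorem br_one {m : ℕ} {χ : ℝ → ℝ} (hχ : Prof χ) {δ : ℝ} (hδ : 0 < δ) {z : Mat m}
    (h : sf z ≤ (δ / 4) ^ 2) : br χ δ z = 1 := by
  apply hχ.one
  rw [abs_of_nonneg (div_nonneg (sf_nn z) (by positivity)), div_le_iff₀ (by positivity)]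
  nlinarith [sq_nonneg δ]

/-- the Lipschitz bound -/
theorem br_lip {χ : ℝ → ℝ} (hχ : Prof χ) :
    ∃ K : ℝ, 0 < K ∧ ∀ (m : ℕ), 1 ≤ m → ∀ (δ : ℝ), 0 < δ → δ ≤ 1 / 2 → ∀ (z w : Mat m) (τ : ℝ),
      sz (w - 1) ≤ τ → 2 * kA m * τ ≤ δ →
      |br χ δ (z * w) - br χ δ z| ≤ K * kA m * τ / δ ∧
      (br χ δ (z * w) - br χ δ z ≠ 0 → sf z ≤ (4 * δ) ^ 2) := by
  have hsupp : HasCompactSupport (fun s : ℝ => χ (s ^ 2)) := by
    refine HasCompactSupport.intro (isCompact_Icc (a := (-1 : ℝ)) (b := 1)) fun s hs => ?_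
    apply hχ.supp
    rw [abs_of_nonneg (sq_nonneg s)]
    by_contra h1
    apply hs
    rw [Set.mem_Icc, ← abs_le]
    have h2 : |s| ^ 2 ≤ 1 := by rw [sq_abs]; linarith
    nlinarith [abs_nonneg s]
  have hsm : ContDiff ℝ ((⊤ : ℕ∞) : WithTop ℕ∞) (fun s : ℝ => χ (s ^ 2)) :=
    hχ.smooth.comp (contDiff_id.pow 2)
  obtain ⟨K, hK⟩ := hsm.lipschitzWith_of_hasCompactSupport hsupp (by simp)
  have hK0 : (0 : ℝ) ≤ K := K.2
  refine ⟨K + 1, by linarith, ?_⟩
  intro m hm δ hδ hδ2 z w τ hw hτ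
  have hτ0 : 0 ≤ τ := (sz_nn _).trans hw
  have hk := kA_pos hm
  have hτ1 : τ ≤ 1 := by nlinarith
  have hs : br χ δ (z * w) - br χ δ z ≠ 0 → sf z ≤ (4 * δ) ^ 2 := by
    intro h
    by_cases h0 : br χ δ z = 0
    · rw [h0, sub_zero] at h
      exact sf_supp hm hw hδ2 hτ (br_supp hχ hδ h)
    · refine (br_supp hχ hδ h0).trans ?_
      nlinarith [sq_nonneg δ]
  refine ⟨?_, hs⟩
  by_cases h : br χ δ (z * w) - br χ δ z = 0
  · rw [h, abs_zero]
    positivity
  · have h1 := hs h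
    have h2 : Real.sqrt (sf z) ≤ 2 := by
      have h3 : Real.sqrt (sf z) ≤ Real.sqrt ((4 * δ) ^ 2) := Real.sqrt_le_sqrt h1
      rw [Real.sqrt_sq (by positivity)] at h3
      linarith
    have h3 := sf_near hw hτ1 h2
    have e2 : ∀ v : Mat m, br χ δ v = χ ((Real.sqrt (sf v) / δ) ^ 2) := by
      intro v
      rw [div_pow, Real.sq_sqrt (sf_nn v)]
      rfl
    rw [e2, e2]
    have h4 := hK.dist_le_mul (Real.sqrt (sf (z * w)) / δ) (Real.sqrt (sf z) / δ)
    rw [Real.dist_eq, Real.dist_eq, ← sub_div, abs_div, abs_of_pos hδ] at h4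
    refine h4.trans ?_
    calc (K : ℝ) * (|Real.sqrt (sf (z * w)) - Real.sqrt (sf z)| / δ) ≤ K * ((kA m * τ) / δ) := by
          apply mul_le_mul_of_nonneg_left _ hK0
          exact div_le_div_of_nonneg_right h3 hδ.le
      _ ≤ (K + 1) * ((kA m * τ) / δ) := by
          apply mul_le_mul_of_nonneg_right (by linarith) (by positivity)
      _ = (K + 1) * kA m * τ / δ := by ring

end Pool.Agent.H62.GHY
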